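import Pool.Agent.Y258.SX.XStmts
import Pool.Agent.Y258.SD.U
import Pool.Agent.Y419.SD.C11

set_option autoImplicit false
set_option linter.unusedSectionVars false

/-!
# Uniform power saving: elementary facts on forbidden lines
-/

namespace Pool.Agent.Y274.SX

open Finset Pool.Agent.H470D4 Pool.Agent.Y258
open Pool.Agent.H935R2.PS (La uu nn dl mx Suit)

section inv
variable {q : ℕ} [Fact q.Prime] {ι : Type} [Fintype ι]

lemma BdL_smul_imp {D K0 : ℕ} {s : ZMod q} (hs : s ≠ 0) {H : ι → ZMod q}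
    (h : BdL D K0 (fun o => s * H o)) : BdL D K0 H := by
  obtain ⟨c, hc, hB⟩ := h
  refine ⟨c * s, mul_ne_zero hc hs, ?_⟩
  have e : (fun a => c * s * H a) = (fun a => c * (s * H a)) := by
    funext a
    ring
  rw [e]
  exact hB

lemma smul_smul_inv {s : ZMod q} (hs : s ≠ 0) (H : ι → ZMod q) :
    (fun o => s⁻¹ * (fun o => s * H o) o) = H := by
  funext o
  show s⁻¹ * (s * H o) = H o
  rw [← mul_assoc, inv_mul_cancel₀ hs, one_mul]

lemma BdL_smul {D K0 : ℕ} {s : ZMod q} (hs : s ≠ 0) (H : ι → ZMod q) :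
    BdL D K0 (fun o => s * H o) ↔ BdL D K0 H := by
  refine ⟨BdL_smul_imp hs, fun h => ?_⟩
  apply BdL_smul_imp (inv_ne_zero hs)
  rw [smul_smul_inv hs]
  exact h

open Classical in
lemma XW_smul {D K0 : ℕ} {s : ZMod q} (hs : s ≠ 0) (H : ι → ZMod q) :
    XW D K0 (fun o => s * H o) = XW D K0 H := by
  unfold XW
  refine Finset.sum_bij' (fun c _ => c * s) (fun c _ => c * s⁻¹) ?_ ?_ ?_ ?_ ?_
  · intro c hc
    rw [mem_filter] at hc ⊢
    exact ⟨mem_univ _, mul_ne_zero hc.2 hs⟩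
  · intro c hc
    rw [mem_filter] at hc ⊢
    exact ⟨mem_univ _, mul_ne_zero hc.2 (inv_ne_zero hs)⟩
  · intro c _
    simp only [mul_assoc, mul_inv_cancel₀ hs, mul_one]
  · intro c _
    simp only [mul_assoc, inv_mul_cancel₀ hs, mul_one]
  · intro c _
    simp only [mul_assoc]

lemma BX_smul {lam : ℝ} {D K0 : ℕ} {s : ZMod q} (hs : s ≠ 0) (H : ι → ZMod q) :
    BX lam D K0 (fun o => s * H o) ↔ BX lam D K0 H := by
  unfold BX
  rw [BdL_smul hs, XW_smul hs]

open Classical in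
/-- the weight of one vector -/
noncomputable def psi (D K0 : ℕ) (h : ι → ZMod q) : ℝ := (2:ℝ) ^ (D * La q) / 2 ^ (K0 + sz h)

lemma psi_nonneg (D K0 : ℕ) (h : ι → ZMod q) : 0 ≤ psi D K0 h := by
  unfold psi
  positivity

open Classical in
lemma XW_eq (D K0 : ℕ) (h : ι → ZMod q) : XW D K0 h =
    ∑ c ∈ (univ : Finset (ZMod q)).filter (fun c => c ≠ 0), psi D K0 (fun a => c * h a) := rfl

/-- a forbidden line has total weight at least one -/
lemma one_le_XW {lam : ℝ} (hl : 1 ≤ lam) {D K0 : ℕ} {h : ι → ZMod q} (hB : BX lam D K0 h) :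
    1 ≤ XW D K0 h := by
  classical
  rcases hB with ⟨c, hc, hB⟩ | hB
  · rw [XW_eq]
    have h1 : 1 ≤ psi D K0 (fun a => c * h a) := by
      unfold psi
      rw [one_le_div (by positivity)]
      apply pow_le_pow_right₀ (by norm_num)
      unfold Pool.Agent.Y258.Bd at hB
      omega
    refine h1.trans ?_
    exact single_le_sum (f := fun c : ZMod q => psi D K0 (fun a => c * h a))
      (fun c _ => psi_nonneg _ _ _) (mem_filter.2 ⟨mem_univ _, hc⟩)
  · linarith

lemma mx_le (x : ZMod q) : mx x ≤ 2 * 2 ^ dl x := by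
  unfold Pool.Agent.H935R2.PS.mx dl
  have h1 : nn x < 2 ^ (Nat.log 2 (nn x) + 1) := Nat.lt_pow_succ_log_self (by norm_num) _
  have h2 : (nn x : ℝ) ≤ 2 * 2 ^ Nat.log 2 (nn x) := by
    have h3 : ((nn x : ℕ) : ℝ) < ((2 ^ (Nat.log 2 (nn x) + 1) : ℕ) : ℝ) := by exact_mod_cast h1
    push_cast at h3
    rw [pow_succ] at h3
    linarith
  have h3 : (1:ℝ) ≤ 2 * 2 ^ Nat.log 2 (nn x) := by
    have : (1:ℝ) ≤ 2 ^ Nat.log 2 (nn x) := one_le_pow₀ (by norm_num)
    linarith
  exact max_le h3 h2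

lemma mx_pos (x : ZMod q) : 0 < mx x := lt_of_lt_of_le one_pos (le_max_left _ _)

lemma inv_sz_le (h : ι → ZMod q) : 1 / (2:ℝ) ^ sz h ≤ 2 ^ Fintype.card ι * wm h := by
  unfold sz wm
  rw [← Finset.prod_pow_eq_pow_sum, one_div, ← Finset.prod_inv_distrib]
  have h1 : (2:ℝ) ^ Fintype.card ι = ∏ _a : ι, (2:ℝ) := by
    rw [Finset.prod_const, Finset.card_univ]
  rw [h1, ← Finset.prod_mul_distrib]
  apply Finset.prod_le_prod
  · intro a _
    positivity
  · intro a _
    have h2 := mx_le (h a)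
    have h3 := mx_pos (h a)
    rw [mul_one_div, inv_eq_one_div, div_le_div_iff₀ (by positivity) h3]
    linarith

lemma two_pow_La_le : (2:ℝ) ^ La q ≤ q := by
  unfold La
  have h := Nat.pow_log_le_self 2 (Fact.out : q.Prime).ne_zero
  exact_mod_cast h

lemma psi_le (D K0 : ℕ) (h : ι → ZMod q) :
    psi D K0 h ≤ 2 ^ Fintype.card ι * ((q:ℝ) ^ D * wm h) / 2 ^ K0 := by
  unfold psi
  have h1 := inv_sz_le h
  have h2 : (2:ℝ) ^ (D * La q) ≤ (q:ℝ) ^ D := by
    rw [mul_comm D, pow_mul]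
    exact pow_le_pow_left₀ (by positivity) two_pow_La_le D
  have hw := wm_nonneg h
  calc (2:ℝ) ^ (D * La q) / 2 ^ (K0 + sz h)
      = (2:ℝ) ^ (D * La q) * (1 / 2 ^ sz h) / 2 ^ K0 := by
        rw [pow_add]
        field_simp
    _ ≤ (q:ℝ) ^ D * (2 ^ Fintype.card ι * wm h) / 2 ^ K0 := by
        apply div_le_div_of_nonneg_right _ (by positivity)
        exact mul_le_mul h2 h1 (by positivity) (by positivity)
    _ = _ := by ring

end inv

section OOl
variable {q n : ℕ} [Fact q.Prime]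

lemma OO_smul (l l' : Fin (n+2) → ℕ) (H H' : Option (Fin (n+2)) → ZMod q) (s : ZMod q) :
    OO l l' H (fun o => s * H' o) = fun a => s * OO l l' H H' a := by
  funext a
  unfold OO
  split_ifs <;> ring

lemma OO_smul_ne (l l' : Fin (n+2) → ℕ) (H H' : Option (Fin (n+2)) → ZMod q) {s : ZMod q}
    (hs : s ≠ 0) (h : OO l l' H H' ≠ 0) : OO l l' H (fun o => s * H' o) ≠ 0 := by
  rw [OO_smul]
  intro h0
  apply h
  funext a
  have h1 : s * OO l l' H H' a = 0 := congrFun h0 a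
  exact (mul_eq_zero.1 h1).resolve_left hs

open Classical in
/-- the sum of the weights over a line is at most the sum over a set of vectors containing it -/
lemma sum_line_le {ι : Type} [Fintype ι] {H' : ι → ZMod q} {o : ι} (ho : H' o ≠ 0)
    (f : (ι → ZMod q) → ℝ) (hf : ∀ h, 0 ≤ f h) (S : Finset (ι → ZMod q))
    (hS : ∀ s : ZMod q, s ≠ 0 → (fun a => s * H' a) ∈ S) :
    ∑ s ∈ (univ : Finset (ZMod q)).filter (fun s => s ≠ 0), f (fun a => s * H' a) ≤
      ∑ h ∈ S, f h := by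
  have hinj : Set.InjOn (fun s : ZMod q => (fun a => s * H' a))
      ((univ : Finset (ZMod q)).filter (fun s => s ≠ 0)) := by
    intro s _ s' _ h
    have h1 := congrFun h o
    exact mul_right_cancel₀ ho h1
  rw [← Finset.sum_image (f := f) (g := fun s : ZMod q => (fun a => s * H' a)) hinj]
  apply sum_le_sum_of_subset_of_nonneg
  · intro h hh
    rw [mem_image] at hh
    obtain ⟨s, hs, rfl⟩ := hh
    exact hS s (mem_filter.1 hs).2
  · intro h _ _
    exact hf h

end OOl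

end Pool.Agent.Y274.SX
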